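import Mathlib
import Pool.Agent.Q83.Cone.Two

set_option autoImplicit false
open scoped LinearAlgebra.Projectivization
open MvPolynomial

/-!
# Nontrivial geproci sets have unexpected cones

Let `Z ⊂ ℙ^3` be a finite set of points (over `ℂ`) which is not contained in a plane and whose
general projection to a plane is a complete intersection of type `(a, b)`, `a ≤ b`. If `Z` is not a
grid, then `Z` satisfies `C(d)` (has an unexpected cone of degree `d`) for every `d` with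
`a ≤ d ≤ a + b - 3`; in particular it satisfies `C(a)` and `C(b)`.
-/

namespace Pool.Agent.Results.MP_69376a_ag.UnexpectedCones

/-- The homogeneous ideal of a set of points of projective space which is given by a set `S` of
vectors: the ideal of all polynomials which vanish on the cone over `S`. -/
noncomputable def idealOf {n : ℕ} (S : Set (Fin n → ℂ)) : Ideal (MvPolynomial (Fin n) ℂ) :=
  vanishingIdeal ℂ {v | ∃ x ∈ S, ∃ t : ℂ, v = t • x}

/-- The part `[I]_d` of degree `d` of an ideal. -/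
noncomputable def degreePart {n : ℕ} (I : Ideal (MvPolynomial (Fin n) ℂ)) (d : ℕ) :
    Submodule ℂ (MvPolynomial (Fin n) ℂ) :=
  homogeneousSubmodule (Fin n) ℂ d ⊓ I.restrictScalars ℂ

/-- `Q` holds for a general point `P` of `ℙ^3`: it holds for all vectors `P` outside of the zero
set of some nonzero polynomial. -/
def ForGeneralPoint (Q : (Fin 4 → ℂ) → Prop) : Prop :=
  ∃ h : MvPolynomial (Fin 4) ℂ, h ≠ 0 ∧ ∀ P : Fin 4 → ℂ, eval P h ≠ 0 → Q P

/-- The projection of the point `z` from the point `P` to the plane `H = {x_3 = 0}`: the first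
three coordinates of the vector `P_3 • z - z_3 • P`. -/
def proj (P z : Fin 4 → ℂ) : Fin 3 → ℂ := fun i => P 3 * z i.castSucc - z 3 * P i.castSucc

/-- `Z` is `(a, b)`-geproci: the ideal of the projection of `Z` from a general point to the plane
`H` is generated by two forms of degrees `a` and `b`. -/
def IsGeproci (Z : Finset (ℙ ℂ (Fin 4 → ℂ))) (a b : ℕ) : Prop :=
  ForGeneralPoint fun P => ∃ F G : MvPolynomial (Fin 3) ℂ, F.IsHomogeneous a ∧
    G.IsHomogeneous b ∧ Ideal.span {F, G} = idealOf {y | ∃ z ∈ Z, y = proj P z.rep}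

/-- `Z` is contained in a plane. -/
def InPlane (Z : Finset (ℙ ℂ (Fin 4 → ℂ))) : Prop :=
  ∃ c : Fin 4 → ℂ, c ≠ 0 ∧ ∀ z ∈ Z, ∑ i, c i * z.rep i = 0

/-- `Z` is a grid: `Z = A ∩ B` for a union `A` of `m` pairwise disjoint lines and a union `B` of
`n` pairwise disjoint lines, `2 ≤ m ≤ n`, such that every line of `A` meets every line of `B` in
exactly one point. -/
def IsGrid (Z : Finset (ℙ ℂ (Fin 4 → ℂ))) : Prop :=
  ∃ m n : ℕ, 2 ≤ m ∧ m ≤ n ∧
    ∃ (A : Fin m → Submodule ℂ (Fin 4 → ℂ)) (B : Fin n → Submodule ℂ (Fin 4 → ℂ)),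
      (∀ i, Module.finrank ℂ (A i) = 2) ∧ (∀ j, Module.finrank ℂ (B j) = 2) ∧
      (∀ i i', i ≠ i' → A i ⊓ A i' = ⊥) ∧ (∀ j j', j ≠ j' → B j ⊓ B j' = ⊥) ∧
      (∀ i j, Module.finrank ℂ ↥(A i ⊓ B j) = 1) ∧
      ∀ z : ℙ ℂ (Fin 4 → ℂ), z ∈ Z ↔ (∃ i, z.submodule ≤ A i) ∧ ∃ j, z.submodule ≤ B j

/-- The condition `C(d)`: for a general point `P` the dimension of `[I(Z) ∩ I(P)^d]_d` is larger
than `max {0, dim [I(Z)]_d - binom (d + 2) 3}` (the subtraction of natural numbers is truncated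
at `0`). -/
def HasUnexpectedCone (Z : Finset (ℙ ℂ (Fin 4 → ℂ))) (d : ℕ) : Prop :=
  ForGeneralPoint fun P =>
    Module.finrank ℂ (degreePart (idealOf {v | ∃ z ∈ Z, v = z.rep}) d) - (d + 2).choose 3 <
      Module.finrank ℂ (degreePart (idealOf {v | ∃ z ∈ Z, v = z.rep} ⊓ idealOf {P} ^ d) d)

open Pool.Agent.Helper947.Geo Pool.Agent.Y206.G Pool.Agent.Y206.Q Pool.Agent.Q83.Cone

theorem mem_idealOf {n : ℕ} {S : Set (Fin n → ℂ)} {f : MvPolynomial (Fin n) ℂ} :
    f ∈ idealOf S ↔ ∀ x ∈ S, ∀ t : ℂ, eval (t • x) f = 0 := by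
  rw [idealOf, mem_vanishingIdeal_iff]
  constructor
  · intro h x hx t
    have := h (t • x) ⟨x, hx, t, rfl⟩
    rwa [aeval_eq_eval] at this
  · rintro h _ ⟨x, hx, t, rfl⟩
    rw [aeval_eq_eval]
    exact h x hx t

theorem projv_eq (P z : Fin 4 → ℂ) : proj P z = projv P z := rfl

theorem gep_of {Z : Finset (ℙ ℂ (Fin 4 → ℂ))} {a b : ℕ} (h : IsGeproci Z a b) :
    Gep (fun z : Z => (z : ℙ ℂ (Fin 4 → ℂ)).rep) a b := by
  obtain ⟨φ, hφ, hP⟩ := h
  refine ⟨φ, hφ, fun P hPφ => ?_⟩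
  obtain ⟨F, G, hF, hG, hI⟩ := hP P hPφ
  refine ⟨F, G, hF, hG, ?_⟩
  intro f
  rw [hI, mem_idealOf]
  constructor
  · intro h k t
    exact h _ ⟨k.1, k.2, rfl⟩ t
  · rintro h _ ⟨z, hz, rfl⟩ t
    exact h ⟨z, hz⟩ t

/-- pull backs of forms of degree `d` vanish at `P` to order `d` -/
theorem pb_mem {P : Fin 4 → ℂ} {f : MvPolynomial (Fin 3) ℂ} {d : ℕ} (hf : f.IsHomogeneous d) :
    pb P f ∈ idealOf {P} ^ d := by
  have hlin : ∀ i : Fin 3, pb P (X i) ∈ idealOf {P} := by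
    intro i
    rw [mem_idealOf]
    rintro x rfl t
    rw [eval_pb, eval_X]
    simp only [projv, Pi.smul_apply, smul_eq_mul]
    ring
  rw [f.as_sum, map_sum]
  refine Ideal.sum_mem _ fun μ hμ => ?_
  have hdeg : μ.degree = d := by
    have := hf (mem_support_iff.mp hμ)
    rw [← this, Finsupp.degree_eq_weight_one]
    rfl
  rw [monomial_eq, map_mul, ← hdeg, Finsupp.degree_eq_sum, Finsupp.prod_fintype _ _ (by simp),
    map_prod, ← Finset.prod_pow_eq_pow_sum]
  refine Ideal.mul_mem_left _ _ (Ideal.prod_mem_prod fun i _ => ?_)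
  rw [map_pow]
  exact Ideal.pow_mem_pow (hlin i) _

theorem pb_inj {P : Fin 4 → ℂ} (hP : P (Fin.last 3) ≠ 0) : Function.Injective (pb P) := by
  rw [injective_iff_map_eq_zero]
  intro f hf
  apply MvPolynomial.funext
  intro y
  rw [map_zero]
  have h := eval_pb P (Fin.snoc (fun i => y i / P (Fin.last 3)) 0) f
  rw [hf, map_zero] at h
  rw [h]
  congr 1
  congr 1
  funext i
  simp only [projv, Fin.snoc_castSucc, Fin.snoc_last, zero_mul, sub_zero]
  field_simp

instance finite_degreePart {n : ℕ} (I : Ideal (MvPolynomial (Fin n) ℂ)) (d : ℕ) :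
    Module.Finite ℂ (degreePart I d) := by
  have h : Module.Finite ℂ (homogeneousSubmodule (Fin n) ℂ d) :=
    Module.Finite.iff_fg.2 (homogeneousSubmodule_fg (Fin n) ℂ d)
  exact Submodule.finiteDimensional_of_le inf_le_left

/-- the cones over curves through the projection -/
theorem cone_le (Z : Finset (ℙ ℂ (Fin 4 → ℂ))) (P : Fin 4 → ℂ) (hP : P (Fin.last 3) ≠ 0)
    (d : ℕ) (J : Ideal (MvPolynomial (Fin 3) ℂ))
    (hJ : IsVan (fun z : Z => projv P (z : ℙ ℂ (Fin 4 → ℂ)).rep) J) :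
    Module.finrank ℂ ↥(homogeneousSubmodule (Fin 3) ℂ d ⊓ J.restrictScalars ℂ) ≤
      Module.finrank ℂ (degreePart (idealOf {v | ∃ z ∈ Z, v = z.rep} ⊓ idealOf {P} ^ d) d) := by
  have hmem : ∀ f : ↥(homogeneousSubmodule (Fin 3) ℂ d ⊓ J.restrictScalars ℂ),
      pb P f.1 ∈ degreePart (idealOf {v | ∃ z ∈ Z, v = z.rep} ⊓ idealOf {P} ^ d) d := by
    rintro ⟨f, hf1, hf2⟩
    refine ⟨pb_hom P hf1, ?_, pb_mem hf1⟩
    show pb P f ∈ idealOf {v | ∃ z ∈ Z, v = z.rep}
    rw [mem_idealOf]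
    rintro _ ⟨z, hz, rfl⟩ t
    have h1 := (hJ f).mp hf2 ⟨z, hz⟩ t
    rw [eval_pb, ← h1]
    congr 1
    congr 1
    funext i
    simp only [projv, Pi.smul_apply, smul_eq_mul]
    ring
  let T : ↥(homogeneousSubmodule (Fin 3) ℂ d ⊓ J.restrictScalars ℂ) →ₗ[ℂ]
      degreePart (idealOf {v | ∃ z ∈ Z, v = z.rep} ⊓ idealOf {P} ^ d) d :=
    LinearMap.codRestrict _ ((pb P).toLinearMap.comp (Submodule.subtype _)) hmem
  apply LinearMap.finrank_le_finrank_of_injective (f := T)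
  intro f g hfg
  apply Subtype.ext
  apply pb_inj hP
  exact congrArg Subtype.val hfg

/-- from the grids of the library to grids -/
theorem grid_of {Z : Finset (ℙ ℂ (Fin 4 → ℂ))} (hnd : ¬ InPlane Z) (h : Grid Z) : IsGrid Z := by
  obtain ⟨a, b, L, M, hL, hM, hLL, hMM, hLM, hZ⟩ := h
  have hZ' : ∀ z : ℙ ℂ (Fin 4 → ℂ), z ∈ Z ↔ (∃ i, z.submodule ≤ L i) ∧ ∃ j, z.submodule ≤ M j := by
    intro z
    rw [hZ]
    constructor
    · rintro ⟨i, j, h⟩
      exact ⟨⟨i, h.le.trans inf_le_left⟩, j, h.le.trans inf_le_right⟩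
    · rintro ⟨⟨i, h1⟩, j, h2⟩
      refine ⟨i, j, Submodule.eq_of_le_of_finrank_eq (le_inf h1 h2) ?_⟩
      rw [hLM, Projectivization.finrank_submodule]
  have key : ∀ V : Submodule ℂ (Fin 4 → ℂ), Module.finrank ℂ V = 2 →
      ¬ ∀ z ∈ Z, z.submodule ≤ V := by
    intro V hV hall
    apply hnd
    have hne : Submodule.span ℂ (Set.range fun z : Z => (z : ℙ ℂ (Fin 4 → ℂ)).rep) ≠ ⊤ := by
      intro htop
      have h1 : (⊤ : Submodule ℂ (Fin 4 → ℂ)) ≤ V := by
        rw [← htop, Submodule.span_le]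
        rintro _ ⟨z, rfl⟩
        exact (sub_le_iff z.1 V).mp (hall z.1 z.2)
      have h2 := Submodule.finrank_mono h1
      rw [finrank_top, Module.finrank_fin_fun, hV] at h2
      omega
    obtain ⟨ξ, hξ, hz⟩ := exists_annihilator _ hne
    exact ⟨ξ, hξ, fun z hz' => hz ⟨z, hz'⟩⟩
  have hempty : Z.Nonempty := by
    rw [Finset.nonempty_iff_ne_empty]
    rintro rfl
    exact hnd ⟨fun _ => 1, fun h0 => by simpa using congrFun h0 0, by simp⟩
  obtain ⟨z₀, hz₀⟩ := hempty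
  obtain ⟨⟨i₀, -⟩, j₀, -⟩ := (hZ' z₀).mp hz₀
  have ha : 2 ≤ a := by
    by_contra hcon
    have h0 := i₀.2
    apply key (L i₀) (hL i₀)
    intro z hz
    obtain ⟨⟨i, hi⟩, -⟩ := (hZ' z).mp hz
    have : i = i₀ := Fin.ext (by have := i.2; omega)
    rwa [this] at hi
  have hb : 2 ≤ b := by
    by_contra hcon
    have h0 := j₀.2
    apply key (M j₀) (hM j₀)
    intro z hz
    obtain ⟨-, j, hj⟩ := (hZ' z).mp hz
    have : j = j₀ := Fin.ext (by have := j.2; omega)
    rwa [this] at hj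
  rcases le_total a b with hab | hab
  · exact ⟨a, b, ha, hab, L, M, hL, hM, hLL, hMM, hLM, hZ'⟩
  · refine ⟨b, a, hb, hab, M, L, hM, hL, hMM, hLL, ?_, ?_⟩
    · intro i j
      rw [inf_comm]
      exact hLM j i
    · intro z
      rw [hZ', and_comm]

/-- **Main theorem.** A nontrivial `(a, b)`-geproci set satisfies `C(a)` and `C(b)`, and more
generally `C(d)` for all `a ≤ d ≤ a + b - 3`. -/
theorem result (Z : Finset (ℙ ℂ (Fin 4 → ℂ))) (a b : ℕ) (hab : a ≤ b) (hZ : IsGeproci Z a b)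
    (hplane : ¬ InPlane Z) (hgrid : ¬ IsGrid Z) :
    HasUnexpectedCone Z a ∧ HasUnexpectedCone Z b ∧
      ∀ d, a ≤ d → d + 3 ≤ a + b → HasUnexpectedCone Z d := by
  classical
  have hspan : ∀ c : Fin 4 → ℂ, (∀ z ∈ Z, ∑ i, c i * z.rep i = 0) → c = 0 := by
    intro c hc
    by_contra hne
    exact hplane ⟨c, hne, hc⟩
  have hsp := c4_span Z hspan
  have h2 : ∀ k l : Z, k ≠ l → LinearIndependent ℂ
      ![(k : ℙ ℂ (Fin 4 → ℂ)).rep, (l : ℙ ℂ (Fin 4 → ℂ)).rep] := by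
    intro k l hkl
    exact c4_pair _ _ (fun h => hkl (Subtype.ext h))
  have hz : ∀ k : Z, (k : ℙ ℂ (Fin 4 → ℂ)).rep ≠ 0 := fun k => k.1.rep_nonzero
  have hpos := card_pos_of_span _ hsp
  have hne : Nonempty Z := Fintype.card_pos_iff.mp (by omega)
  have hG := gep_of hZ
  obtain ⟨φ₁, hφ₁, hind⟩ := projv_indep _ h2 hz (le_refl 3) hsp
  have hG' := hG
  obtain ⟨φ₀, hφ₀, hP⟩ := hG'
  -- the type
  have ha2 : 2 ≤ a := by
    obtain ⟨P, hPφ⟩ := g4_exists_ne (φ₀ * φ₁) (mul_ne_zero hφ₀ hφ₁)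
    rw [map_mul] at hPφ
    obtain ⟨hPl, hpair, hnz, hwsp⟩ := hind P (right_ne_zero_of_mul hPφ)
    obtain ⟨F, G, hF, hG, hI⟩ := hP P (left_ne_zero_of_mul hPφ)
    obtain ⟨-, -, hF0, -, -⟩ := gor_pair hF hG hI hnz
    have hrange : Set.range ![F, G] = {F, G} := by
      simp [Matrix.range_cons, Matrix.range_empty, Set.pair_comm G F]
    have hcop := coprime_of_van _ F G hI
    obtain ⟨hci1, -⟩ := ci_rel (N := 2) _ hpair hnz hwsp ![F, G] ![a, b] (by
      intro i
      fin_cases i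
      · exact hF
      · exact hG) (isReg_pair F G hF0 hcop) (by rw [hrange]; exact hI)
    simpa using hci1 0
  have ha3 : 3 ≤ a := by
    by_contra hcon
    have ha : a = 2 := by omega
    subst ha
    exact hgrid (grid_of hplane (two_grid Z b hab hsp hG))
  -- unexpected cones
  have main : ∀ d, a ≤ d → d + 3 ≤ a + b → HasUnexpectedCone Z d := by
    intro d had hd
    refine ⟨φ₀ * φ₁, mul_ne_zero hφ₀ hφ₁, ?_⟩
    intro P hPφ
    rw [map_mul] at hPφ
    obtain ⟨hPl, hpair, hnz, hwsp⟩ := hind P (right_ne_zero_of_mul hPφ)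
    obtain ⟨F, G, hF, hG, hI⟩ := hP P (left_ne_zero_of_mul hPφ)
    obtain ⟨-, -, hF0, -, -, h, hh, hhne, hsoc⟩ := gor_pair hF hG hI hnz
    obtain ⟨m, hm⟩ : ∃ m, (a - 1) + (b - 1) = m + 2 := ⟨a + b - 4, by omega⟩
    rw [hm] at hsoc
    have g : GorSet (fun k : Z => projv P (k : ℙ ℂ (Fin 4 → ℂ)).rep) (m + 2)
        (Ideal.span {F, G}) h := ⟨hI, hh, hhne, hsoc, hpair, hnz⟩
    have hlt : Module.finrank ℂ (evRel (fun k : Z => (k : ℙ ℂ (Fin 4 → ℂ)).rep) d) <
        Module.finrank ℂ (evRel (fun k : Z => projv P (k : ℙ ℂ (Fin 4 → ℂ)).rep) d) :=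
      core (fun k : Z => (k : ℙ ℂ (Fin 4 → ℂ)).rep) P hPl
      (fun c hc => hspan c fun z hz => hc ⟨z, hz⟩) hwsp g (by omega) d (by omega) (by omega)
    have hIz : IsVan (fun k : Z => (k : ℙ ℂ (Fin 4 → ℂ)).rep)
        (idealOf {v | ∃ z ∈ Z, v = z.rep}) := by
      intro f
      rw [mem_idealOf]
      constructor
      · intro h k t
        exact h _ ⟨k.1, k.2, rfl⟩ t
      · rintro h _ ⟨z, hz, rfl⟩ t
        exact h ⟨z, hz⟩ t
    have e1 := finrank_evRel _ d _ hIz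
    have e2 := finrank_evRel _ d _ hI
    rw [finrank_forms 3 d] at e1
    rw [finrank_forms 2 d] at e2
    beta_reduce at e1 e2
    have e3 : (3 + d).choose 3 = (2 + d).choose 2 + (d + 2).choose 3 := by
      rw [add_comm 3 d, add_comm 2 d]
      exact Nat.choose_succ_succ (d + 2) 2
    have e4 := cone_le Z P hPl d _ hI
    have e5 : 0 < Module.finrank ℂ
        ↥(homogeneousSubmodule (Fin 3) ℂ d ⊓ (Ideal.span {F, G}).restrictScalars ℂ) := by
      have hfin : Module.Finite ℂ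
          ↥(homogeneousSubmodule (Fin 3) ℂ d ⊓ (Ideal.span {F, G}).restrictScalars ℂ) :=
        finite_degreePart _ d
      rw [Nat.pos_iff_ne_zero]
      intro h0
      rw [Submodule.finrank_eq_zero] at h0
      have hmem : F * X 0 ^ (d - a) ∈
          (homogeneousSubmodule (Fin 3) ℂ d ⊓ (Ideal.span {F, G}).restrictScalars ℂ) := by
        refine ⟨?_, ?_⟩
        · have := hF.mul ((isHomogeneous_X ℂ (0 : Fin 3)).pow (d - a))
          rw [one_mul, Nat.add_sub_cancel' had] at this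
          exact this
        · exact Ideal.mul_mem_right _ _ (Ideal.subset_span (by simp))
      rw [h0, Submodule.mem_bot] at hmem
      exact (mul_ne_zero hF0 (pow_ne_zero _ (X_ne_zero _))) hmem
    show Module.finrank ℂ ↥(homogeneousSubmodule (Fin 4) ℂ d ⊓
      (idealOf {v | ∃ z ∈ Z, v = z.rep}).restrictScalars ℂ) - (d + 2).choose 3 < _
    omega
  exact ⟨main a le_rfl (by omega), main b hab (by omega), main⟩

end Pool.Agent.Results.MP_69376a_ag.UnexpectedCones
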